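import Pool.Agent.TH826.DC.Final
import Pool.Agent.X321.BL.Limit
set_option autoImplicit false

/-!
Families of tori with a limit for the regulator matrix.
-/

namespace Pool.Agent.X321.DC

open Pool.Agent.X321.BL (abs_det_near)

/-- If all entries of `M` are close to the entries of the identity matrix, the determinant is close
to `1`. -/
theorem exists_near_one (ι : Type*) [Fintype ι] [DecidableEq ι] {ε : ℝ} (hε : 0 < ε) :
    ∃ δ : ℝ, 0 < δ ∧ δ ≤ ε ∧ ∀ M : Matrix ι ι ℝ, (∀ i j, |M i j - (if i = j then 1 else 0)| ≤ δ) →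
      |M.det - 1| ≤ ε := by
  obtain ⟨δ, hδ, h⟩ := abs_det_near (1 : Matrix ι ι ℝ) hε
  refine ⟨min (δ / 2) ε, lt_min (by linarith) hε, min_le_right _ _, fun M hM => ?_⟩
  have h1 := h M fun i j => by
    rw [Matrix.one_apply]
    exact ((hM i j).trans (min_le_left _ _)).trans_lt (by linarith)
  rw [Matrix.det_one] at h1
  exact h1.le

/-- the determinant of a matrix whose entries divided by `s` are close to those of the identity -/
theorem det_div {ι : Type*} [Fintype ι] [DecidableEq ι] (R : Matrix ι ι ℝ) {s : ℝ} (hs : s ≠ 0) :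
    R.det / s ^ Fintype.card ι = (Matrix.of fun i j => R i j / s).det := by
  have h : R = s • Matrix.of fun i j => R i j / s := by
    ext i j
    rw [Matrix.smul_apply, Matrix.of_apply, smul_eq_mul]
    field_simp
  conv_lhs => rw [h]
  rw [Matrix.det_smul]
  field_simp

open Pool.Agent.TH826.MK

open Pool.Agent.TH826.GA

open Pool.Agent.TH826.DC

variable {K : Type*} [Field K] {d m : ℕ} {c : Fin (m + 1) → Fin (d + 1) → K}
  {a : Fin (m + 1) → K}

theorem exists_tori_limit (σ : K →+* ℂ)
    (hdet : ∀ T : Fin (d + 1) → Fin (m + 1), Function.Injective T → (cm c T).det ≠ 0)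
    (hgen : ∀ S : Fin (d + 2) → Fin (m + 1), Function.Injective S → ∀ x : Fin (d + 1) → K,
      ∃ i, ∑ j, c (S i) j * x j ≠ a (S i)) {ε : ℝ} (hε : 0 < ε) :
    ∃ C : ℝ, 1 < C ∧ ∀ lam : K, C ≤ ‖σ lam‖ →
      ∃ Γ : {s : Finset (Fin m) // s.card = d + 1} → Torus (DOpen lam c a) (d + 1),
        (∀ t θ x, (Γ t).e θ (dcst lam c a x) = σ x) ∧
        (∀ t i : {s : Finset (Fin m) // s.card = d + 1},
          |(Γ t).reg (symb (dent lam c a (splx i))) /
            ((2 * Real.pi) ^ (d + 1) * Real.log ‖σ lam‖) - (if t = i then 1 else 0)| ≤ ε) ∧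
        |(Matrix.of fun t i : {s : Finset (Fin m) // s.card = d + 1} =>
          (Γ t).reg (symb (dent lam c a (splx i)))).det /
          ((2 * Real.pi) ^ (d + 1) * Real.log ‖σ lam‖) ^ (m.choose (d + 1)) - 1| ≤ ε := by
  classical
  set D0 : ℝ := (2 * Real.pi) ^ (d + 1) with hD0
  have hD : 0 < D0 := by
    have := Real.pi_pos
    positivity
  obtain ⟨δ, hδ, hδε, hnear⟩ := exists_near_one {s : Finset (Fin m) // s.card = d + 1} hε
  choose Λ hΛ1 hΛ using fun t : {s : Finset (Fin m) // s.card = d + 1} =>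
    Pool.Agent.TH826.DC.exists_torus (a := a) σ hdet hgen (vert_injective t) (ε := δ * D0) (by positivity)
  set C : ℝ := ∑ t, |Λ t| + 2 with hC
  have hsum : 0 ≤ ∑ t, |Λ t| := Finset.sum_nonneg fun J _ => abs_nonneg _
  have hΛC : ∀ t, Λ t ≤ C := by
    intro t
    have h1 := Finset.single_le_sum (f := fun t => |Λ t|) (fun t _ => abs_nonneg _)
      (Finset.mem_univ t)
    have h2 := le_abs_self (Λ t)
    have h3 : |Λ t| ≤ ∑ t, |Λ t| := h1
    linarith
  refine ⟨C, by linarith, fun lam hlam => ?_⟩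
  choose Γ hΓ1 hΓ2 using fun t => hΛ t lam ((hΛC t).trans hlam)
  have hs : 0 < Real.log ‖σ lam‖ := Real.log_pos (by linarith)
  have hent : ∀ t i : {s : Finset (Fin m) // s.card = d + 1},
      |(Γ t).reg (symb (dent lam c a (splx i))) / (D0 * Real.log ‖σ lam‖) -
        (if t = i then 1 else 0)| ≤ δ := by
    intro t i
    have h2 := hΓ2 t (splx i) (splx_injective i)
    rw [det_RM] at h2
    have e : (Γ t).reg (symb (dent lam c a (splx i))) / (D0 * Real.log ‖σ lam‖) -
        (if t = i then 1 else 0) = ((Γ t).reg (symb (dent lam c a (splx i))) / Real.log ‖σ lam‖ -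
        D0 * (if t = i then 1 else 0)) / D0 := by
      field_simp
    rw [e, abs_div, abs_of_pos hD, div_le_iff₀ hD]
    exact h2
  refine ⟨Γ, hΓ1, fun t i => (hent t i).trans hδε, ?_⟩
  have hcard : Fintype.card {s : Finset (Fin m) // s.card = d + 1} = m.choose (d + 1) := by
    rw [Fintype.card_finset_len, Fintype.card_fin]
  rw [← hcard, det_div _ (by positivity)]
  exact hnear _ fun t i => hent t i

end Pool.Agent.X321.DC
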