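import Pool.Agent.TH826.EF.Final
import Pool.Agent.X321.DC.Main
set_option autoImplicit false

/-!
The regulators of all the symbols of simplices on the fibrations by elliptic curves.
-/

namespace Pool.Agent.X321.DC

open Pool.Agent.TH826.MK

open Pool.Agent.TH826.GA (cm splx vert vert_injective splx_injective)

open Pool.Agent.TH826.DC (RM wT det_RM)

open Pool.Agent.TH826.EF

section inc

variable {d m : ℕ}

/-- The incidence number of `T = (T_0, ..., T_d)` and the simplex `S = (S_0, ..., S_{d+1})`: the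
determinant of the matrix `([T_j = S_{k+1}] - [T_j = S_0])`, `0 ≤ j, k ≤ d`. -/
noncomputable def inc (T : Fin (d + 1) → Fin (m + 1)) (S : Fin (d + 2) → Fin (m + 1)) : ℝ :=
  (Matrix.of fun k j : Fin (d + 1) =>
    (if T j = S k.succ then (1 : ℝ) else 0) - (if T j = S 0 then 1 else 0)).det

theorem det_RM_eq (T : Fin (d + 1) → Fin (m + 1)) (S : Fin (d + 2) → Fin (m + 1)) :
    (RM T S).det = inc T S := by
  have h1 : (RM T S).det = (Matrix.of fun k j => wT T (S k.succ) j - wT T (S 0) j :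
        Matrix (Fin (d + 1)) (Fin (d + 1)) ℝ).det := by
    rw [Matrix.det_succ_column_zero, Fin.sum_univ_succ]
    have h2 : ∀ k : Fin (d + 1), RM T S k.succ 0 = 0 := fun k => rfl
    have h3 : RM T S 0 0 = 1 := rfl
    simp only [h2, h3, mul_zero, zero_mul, Finset.sum_const_zero, add_zero, Fin.val_zero,
      pow_zero, mul_one, one_mul]
    congr 1
  rw [h1]
  rfl

theorem inc_splx (t t' : {s : Finset (Fin m) // s.card = d + 1}) :
    inc (vert t) (splx t') = if t = t' then 1 else 0 := by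
  rw [← det_RM_eq, det_RM]

end inc

variable {K : Type*} [Field K] {d m : ℕ} {c : Fin (m + 1) → Fin (d + 1) → K}
  {a : Fin (m + 1) → K}

theorem exists_tori_ef (σ : K →+* ℂ)
    (hdet : ∀ T : Fin (d + 1) → Fin (m + 1), Function.Injective T → (cm c T).det ≠ 0)
    (hgen : ∀ S : Fin (d + 2) → Fin (m + 1), Function.Injective S → ∀ x : Fin (d + 1) → K,
      ∃ i, ∑ j, c (S i) j * x j ≠ a (S i)) {ε : ℝ} (hε : 0 < ε) :
    ∃ C : ℝ, 1 < C ∧ ∀ lam : K, C ≤ ‖σ lam‖ →
      ∃ Γ : {T : Fin (d + 1) → Fin (m + 1) // Function.Injective T} →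
          Torus (EOpen lam c a) (d + 2),
        (∀ T θ x, (Γ T).e θ (ecst lam c a x) = σ x) ∧
        (∀ T, ∀ S : Fin (d + 2) → Fin (m + 1), Function.Injective S →
          |(Γ T).reg (symb (eent lam c a S)) /
            ((2 * Real.pi) ^ (d + 2) * Real.log ‖σ lam‖) - inc T.1 S| ≤ ε) ∧
        |(Matrix.of fun t i : {s : Finset (Fin m) // s.card = d + 1} =>
          (Γ ⟨vert t, vert_injective t⟩).reg (symb (eent lam c a (splx i)))).det /
          ((2 * Real.pi) ^ (d + 2) * Real.log ‖σ lam‖) ^ (m.choose (d + 1)) - 1| ≤ ε := by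
  classical
  set D0 : ℝ := (2 * Real.pi) ^ (d + 2) with hD0
  have hD : 0 < D0 := by
    have := Real.pi_pos
    positivity
  obtain ⟨δ, hδ, hδε, hnear⟩ := exists_near_one {s : Finset (Fin m) // s.card = d + 1} hε
  choose Λ hΛ1 hΛ using fun t : {T : Fin (d + 1) → Fin (m + 1) // Function.Injective T} =>
    Pool.Agent.TH826.EF.exists_torus (a := a) σ hdet hgen t.2 (ε := δ * D0) (by positivity)
  set C : ℝ := ∑ t, |Λ t| + 2 with hC
  have hsum : 0 ≤ ∑ t, |Λ t| := Finset.sum_nonneg fun J _ => abs_nonneg _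
  have hΛC : ∀ t, Λ t ≤ C := by
    intro t
    have h1 := Finset.single_le_sum (f := fun t => |Λ t|) (fun t _ => abs_nonneg _)
      (Finset.mem_univ t)
    have h2 := le_abs_self (Λ t)
    have h3 : |Λ t| ≤ ∑ t, |Λ t| := h1
    linarith
  refine ⟨C, by linarith, fun lam hlam => ?_⟩
  choose Γ hΓ1 hΓ2 using fun t => hΛ t lam ((hΛC t).trans hlam)
  have hs : 0 < Real.log ‖σ lam‖ := Real.log_pos (by linarith)
  have hent : ∀ t, ∀ S : Fin (d + 2) → Fin (m + 1), Function.Injective S →
      |(Γ t).reg (symb (eent lam c a S)) / (D0 * Real.log ‖σ lam‖) - inc t.1 S| ≤ δ := by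
    intro t S hS
    have h2 := hΓ2 t S hS
    rw [det_RE, det_RM_eq] at h2
    have e : (Γ t).reg (symb (eent lam c a S)) / (D0 * Real.log ‖σ lam‖) - inc t.1 S =
        ((Γ t).reg (symb (eent lam c a S)) / Real.log ‖σ lam‖ - D0 * inc t.1 S) / D0 := by
      field_simp
    rw [e, abs_div, abs_of_pos hD, div_le_iff₀ hD]
    exact h2
  refine ⟨Γ, hΓ1, fun t S hS => (hent t S hS).trans hδε, ?_⟩
  have hcard : Fintype.card {s : Finset (Fin m) // s.card = d + 1} = m.choose (d + 1) := by
    rw [Fintype.card_finset_len, Fintype.card_fin]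
  rw [← hcard, det_div _ (by positivity)]
  refine hnear _ fun t i => ?_
  rw [← inc_splx]
  exact hent _ _ (splx_injective i)

end Pool.Agent.X321.DC
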